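import Pool.Agent.Helper23.NU.Stmts

/-!
# Strict alternating cycles inside a node: confinement to a child or grandchild
-/

set_option autoImplicit false

namespace Pool.Agent.Helper23.NU

open Pool.Agent.Helper66.PD Finset

/-- a periodic predicate changes at two places of a period -/
theorem two_changes (s : ℕ → Prop) (n : ℕ) (hper : s n ↔ s 0) (k0 : ℕ) (hk0 : k0 < n)
    (h : ¬ (s k0 ↔ s (k0 + 1))) : ∃ k1, k1 < n ∧ k1 ≠ k0 ∧ ¬ (s k1 ↔ s (k1 + 1)) := by
  by_contra hcon
  have hcon' : ∀ k, k < n → k ≠ k0 → (s k ↔ s (k + 1)) := by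
    intro k hk hk'
    by_contra hc
    exact hcon ⟨k, hk, hk', hc⟩
  have h1 : ∀ k, k ≤ k0 → (s 0 ↔ s k) := by
    intro k
    induction k with
    | zero => intro _; exact Iff.rfl
    | succ k ih =>
      intro hk
      exact (ih (by omega)).trans (hcon' k (by omega) (by omega))
  have h2 : ∀ d, k0 + 1 + d ≤ n → (s (k0 + 1) ↔ s (k0 + 1 + d)) := by
    intro d
    induction d with
    | zero => intro _; exact Iff.rfl
    | succ d ih =>
      intro hd
      exact (ih (by omega)).trans (hcon' (k0 + 1 + d) (by omega) (by omega))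
  have h3 := h2 (n - (k0 + 1)) (by omega)
  rw [show k0 + 1 + (n - (k0 + 1)) = n by omega] at h3
  exact h ((h1 k0 le_rfl).symm.trans (hper.symm.trans h3.symm))

/-- a chain between comparable elements which crosses every boundary in between -/
theorem chain (P : Type) [PartialOrder P] [Fintype P] (w h m : ℕ) (l r H : P → ℕ)
    (hR : Rep P w h m l r H) : ∀ (N : ℕ) (x y : P), x ≤ y → H y ≤ H x + N →
    ∃ S : Finset P, S.card ≤ H y - H x + 1 ∧ x ∈ S ∧ (∀ b ∈ S, x ≤ b ∧ b ≤ y) ∧
      ∀ i, (l x < i ∧ i ≤ l y ∨ l y < i ∧ i ≤ l x) → ∃ b ∈ S, l b < i ∧ i ≤ r b := by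
  classical
  intro N
  induction N with
  | zero =>
    intro x y hxy hH
    have hxy' : x = y := by
      by_contra hne
      have := hR.mono x y (lt_of_le_of_ne hxy hne)
      omega
    subst hxy'
    exact ⟨{x}, by simp, by simp, by simp, fun i hi => by omega⟩
  | succ N ih =>
    intro x y hxy hH
    by_cases hne : x = y
    · subst hne
      exact ⟨{x}, by simp, by simp, by simp, fun i hi => by omega⟩
    · obtain ⟨b, hb1, hb2⟩ := exists_covBy_le_of_lt (lt_of_le_of_ne hxy hne)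
      have hxb := hR.mono x b hb1.lt
      obtain ⟨S, s1, s2, s3, s4⟩ := ih b y hb2 (by omega)
      obtain ⟨a1, a2⟩ := hR.adj x b hb1
      have hby : H b ≤ H y := by
        rcases eq_or_lt_of_le hb2 with h | h
        · rw [h]
        · exact (hR.mono b y h).le
      refine ⟨insert x S, ?_, mem_insert_self _ _, ?_, ?_⟩
      · refine (card_insert_le x S).trans ?_
        omega
      · intro c hc
        rcases mem_insert.1 hc with rfl | hc
        · exact ⟨le_rfl, hxy⟩
        · exact ⟨hb1.le.trans (s3 c hc).1, (s3 c hc).2⟩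
      · intro i hi
        by_cases hib : l b < i ∧ i ≤ l y ∨ l y < i ∧ i ≤ l b
        · obtain ⟨c, c1, c2⟩ := s4 i hib
          exact ⟨c, mem_insert_of_mem c1, c2⟩
        · rcases Nat.lt_or_ge (l x) i with h1 | h1
          · exact ⟨x, mem_insert_self _ _, h1, by omega⟩
          · exact ⟨b, mem_insert_of_mem s2, by omega, by omega⟩

section

variable {P : Type} [Fintype P] {m : ℕ} {l r : P → ℕ} {A E C : ℕ → ℕ → ℕ}

theorem btw (hH : Hier P m l r A E C) {ℓ p i q : ℕ} (h1 : p ≤ i) (h2 : i ≤ q) (hq : q < m)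
    (h : A ℓ p = A ℓ q) : A ℓ i = A ℓ p := by
  have hp : p < m := by omega
  obtain ⟨a1, a2, a3⟩ := hH.mem ℓ p hp
  obtain ⟨b1, b2, b3⟩ := hH.mem ℓ q hq
  have h3 := hH.eqE ℓ p q hp hq h
  exact hH.node ℓ p i hp (a1.trans h1) (by omega)

theorem jump (hH : Hier P m l r A E C) {ℓ i : ℕ} (hi : i < m) (h1 : 1 ≤ i)
    (h2 : A (ℓ + 1) i = i) (h3 : A ℓ (i - 1) = A ℓ i) : C ℓ (i - 1) < C ℓ i := by
  have h4 := hH.mono ℓ (i - 1) i (by omega) hi h3
  rcases Nat.eq_or_lt_of_le h4 with h5 | h5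
  · exfalso
    have h6 := (hH.child ℓ (i - 1) i (by omega) hi).2 ⟨h3, h5⟩
    have h7 := (hH.mem (ℓ + 1) (i - 1) (by omega)).1
    omega
  · exact h5

theorem thin_congr (hH : Hier P m l r A E C) {j p q : ℕ} (hp : p < m) (hq : q < m)
    (h : A (j + 1) p = A (j + 1) q) : Thin l r A E j p ↔ Thin l r A E j q := by
  have h1 := ((hH.child j p q hp hq).1 h).1
  have h2 := hH.eqE (j + 1) p q hp hq h
  have h3 := hH.eqE j p q hp hq h1
  unfold Thin
  rw [h, h1, h2, h3]

theorem sep (hH : Hier P m l r A E C) {ℓ p q : ℕ} (hpq : p ≤ q) (hq : q < m)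
    (h : A ℓ p ≠ A ℓ q) : p < A ℓ q ∧ A ℓ q ≤ q ∧ A ℓ (A ℓ q) = A ℓ q := by
  obtain ⟨b1, b2, b3⟩ := hH.mem ℓ q hq
  have h1 : A ℓ (A ℓ q) = A ℓ q := hH.node ℓ q _ hq le_rfl (b1.trans b2)
  refine ⟨?_, b1, h1⟩
  by_contra hc
  exact h (hH.node ℓ q p hq (not_lt.1 hc) (hpq.trans b2))

/-- positions not separated by marks -/
theorem nosep (hH : Hier P m l r A E C) {j p q : ℕ} (hpq : p ≤ q) (hq : q < m)
    (hN : A j p = A j q)
    (hem : ∀ i, A j p < i → i ≤ E j p → i < m → Mk l r A E j i → (i ≤ p ↔ i ≤ q)) :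
    A (j + 1) p = A (j + 1) q ∧ (Thin l r A E j p → A (j + 2) p = A (j + 2) q) := by
  have hp : p < m := by omega
  obtain ⟨a1, a2, a3⟩ := hH.mem j p hp
  obtain ⟨b1, b2, b3⟩ := hH.mem j q hq
  have hE := hH.eqE j p q hp hq hN
  have h1 : A (j + 1) p = A (j + 1) q := by
    by_contra hne
    obtain ⟨c1, c2, c3⟩ := sep hH hpq hq hne
    have := (hem (A (j + 1) q) (by omega) (by omega) (by omega) (Or.inl c3)).2 c2
    omega
  refine ⟨h1, fun hT => ?_⟩
  by_contra hne
  obtain ⟨c1, c2, c3⟩ := sep hH hpq hq hne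
  have h2 : A (j + 1) (A (j + 2) q) = A (j + 1) p := btw hH c1.le c2 hq h1
  have h3 : Thin l r A E j (A (j + 2) q) := (thin_congr hH (by omega) hp h2).2 hT
  have := (hem (A (j + 2) q) (by omega) (by omega) (by omega) (Or.inr ⟨c3, h3⟩)).2 c2
  omega

/-- cardinalities of initial segments -/
theorem seg_card (M : Finset ℕ) (p q : ℕ) (hpq : p ≤ q) :
    (M.filter (fun i => i ≤ q)).card = (M.filter (fun i => i ≤ p)).card +
      (M.filter (fun i => ¬ (i ≤ p ↔ i ≤ q))).card := by
  classical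
  rw [← card_union_of_disjoint]
  · congr 1
    ext i
    simp only [mem_union, mem_filter]
    constructor
    · rintro ⟨h1, h2⟩
      by_cases h3 : i ≤ p
      · exact Or.inl ⟨h1, h3⟩
      · exact Or.inr ⟨h1, fun h4 => h3 (h4.2 h2)⟩
    · rintro (⟨h1, h2⟩ | ⟨h1, h2⟩)
      · exact ⟨h1, h2.trans hpq⟩
      · refine ⟨h1, ?_⟩
        by_contra h3
        exact h2 ⟨fun h4 => absurd (h4.trans hpq) h3, fun h4 => absurd h4 h3⟩
  · rw [disjoint_left]
    intro i h1 h2
    simp only [mem_filter] at h1 h2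
    exact h2.2 ⟨fun _ => h1.2.trans hpq, fun _ => h1.2⟩

/-- an element which avoids the ends of the node crosses at most three marks, besides those of the
thin child which it spans -/
theorem few (hH : Hier P m l r A E C) (hrm : ∀ x, r x < m) (j a0 : ℕ) (p0 : ℕ) (hp0 : p0 < m)
    (ha0 : A j p0 = a0) (b : P) (hb1 : ¬ (l b ≤ a0 ∧ a0 ≤ r b))
    (hb2 : ¬ (l b ≤ E j p0 ∧ E j p0 ≤ r b)) (M : Finset ℕ)
    (hM : ∀ i ∈ M, a0 < i ∧ i ≤ E j p0 ∧ i < m ∧ Mk l r A E j i ∧ l b < i ∧ i ≤ r b ∧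
      ¬ (A (j + 1) i ≠ i ∧ l b ≤ A (j + 1) i ∧ E (j + 1) i ≤ r b)) : M.card ≤ 3 := by
  classical
  have hin : ∀ i ∈ M, ∀ q, l b ≤ q → q ≤ r b → A j q = a0 := by
    intro i hi q hq1 hq2
    obtain ⟨h1, h2, h3, h4, h5, h6, h7⟩ := hM i hi
    rw [← ha0] at h1 hb1 ⊢
    exact hH.node j p0 q hp0 (by omega) (by omega)
  have hst : ∀ i ∈ M, C j (r b) ≤ C j (l b) + 1 := by
    intro i hi
    obtain ⟨h1, h2, h3, h4, h5, h6, h7⟩ := hM i hi
    have e1 := hin i hi (l b) le_rfl (by omega)
    have e2 := hin i hi (r b) (by omega) le_rfl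
    refine hH.step j b (l b) (r b) (by omega) (hrm b) (e1.trans e2.symm) ?_ le_rfl le_rfl
    rw [e1]
    intro hc
    exact hb1 ⟨hc.1, by omega⟩
  have hCle : ∀ i ∈ M, ∀ p q, l b ≤ p → p ≤ q → q ≤ r b → C j p ≤ C j q := by
    intro i hi p q h1 h2 h3
    refine hH.mono j p q h2 (lt_of_le_of_lt h3 (hrm b)) ?_
    rw [hin i hi p h1 (h2.trans h3), hin i hi q (h1.trans h2) h3]
  have key : ∀ i1 ∈ M, ∀ i2 ∈ M, i1 < i2 →
      (if A (j + 1) i1 = i1 then 0 else C j i1 - C j (l b) + 1) ≠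
        (if A (j + 1) i2 = i2 then 0 else C j i2 - C j (l b) + 1) := by
    intro i1 h1 i2 h2 hlt heq
    obtain ⟨a1, a2, a3, a4, a5, a6, a7⟩ := hM i1 h1
    obtain ⟨b1, b2, b3, b4, b5, b6, b7⟩ := hM i2 h2
    have hs := hst i1 h1
    by_cases c1 : A (j + 1) i1 = i1
    · by_cases c2 : A (j + 1) i2 = i2
      · have d1 := jump hH (ℓ := j) a3 (by omega) c1
          ((hin i1 h1 (i1 - 1) (by omega) (by omega)).trans
            (hin i1 h1 i1 (by omega) (by omega)).symm)
        have d2 := jump hH (ℓ := j) b3 (by omega) c2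
          ((hin i1 h1 (i2 - 1) (by omega) (by omega)).trans
            (hin i1 h1 i2 (by omega) (by omega)).symm)
        have d3 := hCle i1 h1 (l b) (i1 - 1) le_rfl (by omega) (by omega)
        have d4 := hCle i1 h1 i1 (i2 - 1) (by omega) (by omega) (by omega)
        have d5 := hCle i1 h1 i2 (r b) (by omega) (by omega) le_rfl
        omega
      · rw [if_pos c1, if_neg c2] at heq
        omega
    · by_cases c2 : A (j + 1) i2 = i2
      · rw [if_neg c1, if_pos c2] at heq
        omega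
      · rw [if_neg c1, if_neg c2] at heq
        have d1 := hCle i1 h1 (l b) i1 le_rfl (by omega) (by omega)
        have d2 := hCle i1 h1 (l b) i2 le_rfl (by omega) (by omega)
        have d3 : C j i1 = C j i2 := by omega
        have d4 : A (j + 1) i1 = A (j + 1) i2 := (hH.child j i1 i2 a3 b3).2
          ⟨(hin i1 h1 i1 (by omega) (by omega)).trans
            (hin i1 h1 i2 (by omega) (by omega)).symm, d3⟩
        have g1 : A (j + 2) i1 = i1 := (a4.resolve_left c1).1
        have g2 : A (j + 2) i2 = i2 := (b4.resolve_left c2).1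
        have e1 := (hH.mem (j + 1) i1 a3).1
        have e2 : A (j + 1) (i1 - 1) = A (j + 1) i1 := by
          obtain ⟨f1, f2, f3⟩ := hH.mem (j + 1) i1 a3
          exact hH.node (j + 1) i1 (i1 - 1) a3 (by omega) (by omega)
        have e3 : A (j + 1) (i2 - 1) = A (j + 1) i2 := by
          have := btw hH (ℓ := j + 1) (p := i1) (i := i2 - 1) (q := i2) (by omega) (by omega)
            b3 d4
          rw [this, d4]
        have s1 := jump hH (ℓ := j + 1) a3 (by omega) g1 e2
        have s2 := jump hH (ℓ := j + 1) b3 (by omega) g2 e3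
        have s3 := hH.mono (j + 1) i1 (i2 - 1) (by omega) (by omega) (d4.trans e3.symm)
        have s4 := hH.step (j + 1) b (i1 - 1) i2 (by omega) b3 (e2.trans d4) (by
          intro hc
          apply b7
          have hE := hH.eqE (j + 1) (i1 - 1) i2 (by omega) b3 (e2.trans d4)
          rw [e2.trans d4, hE] at hc
          exact ⟨c2, hc⟩) (by omega) b6
        omega
  have h1 : M.card ≤ (range 3).card := by
    apply card_le_card_of_injOn
      (fun i => if A (j + 1) i = i then 0 else C j i - C j (l b) + 1)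
    · intro i hi
      obtain ⟨a1, a2, a3, a4, a5, a6, a7⟩ := hM i hi
      have hs := hst i hi
      have d1 := hCle i hi i (r b) (by omega) (by omega) le_rfl
      have d2 : (if A (j + 1) i = i then 0 else C j i - C j (l b) + 1) < 3 := by
        split_ifs <;> omega
      exact mem_coe.2 (mem_range.2 d2)
    · intro i1 h1 i2 h2 heq
      rcases lt_trichotomy i1 i2 with h | h | h
      · exact absurd heq (key i1 h1 i2 h2 h)
      · exact h
      · exact absurd heq.symm (key i2 h2 i1 h1 h)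
  rwa [card_range] at h1

end

theorem st_CONF : ST_CONF := by
  classical
  intro P _ _ w h m l r H A E C hh hR hH j n X Y hn hXp hYp hle hst hA hno hs1 hs2 hmod
  have hlm : ∀ x, l x < m := fun x => lt_of_le_of_lt (hR.lr x) (hR.rm x)
  have hA0 : ∀ k, A j (l (X k)) = A j (l (X 0)) := by
    intro k
    induction k with
    | zero => rfl
    | succ k ih => rw [← hA k]; exact ih
  have hE0 : ∀ k, E j (l (X k)) = E j (l (X 0)) := fun k =>
    hH.eqE j _ _ (hlm _) (hlm _) (hA0 k)
  set a0 := A j (l (X 0)) with ha0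
  set e0 := E j (l (X 0)) with he0
  set M : Finset ℕ := (range m).filter (fun i => a0 < i ∧ i ≤ e0 ∧ Mk l r A E j i) with hM
  have memM : ∀ i, i ∈ M ↔ i < m ∧ a0 < i ∧ i ≤ e0 ∧ Mk l r A E j i := by
    intro i
    rw [hM, mem_filter, mem_range]
  -- marks do not separate `X k` and `Y k`
  have hXY : ∀ k, ∀ i ∈ M, (i ≤ l (X k) ↔ i ≤ l (Y k)) := by
    intro k i hi
    obtain ⟨i1, i2, i3, i4⟩ := (memM i).1 hi
    have gen : ∀ p q, p < m → q < m → A (j + 1) p = A (j + 1) q →
        (Thin l r A E j p → A (j + 2) p = A (j + 2) q) → i ≤ q → i ≤ p := by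
      intro p q hp hq e1 e2 hiq
      by_contra hip
      push Not at hip
      have e3 := btw hH (ℓ := j + 1) (by omega : p ≤ i) hiq hq e1
      rcases i4 with h4 | ⟨h4, h5⟩
      · have := (hH.mem (j + 1) p hp).1
        omega
      · have e4 := e2 ((thin_congr hH i1 hp e3).1 h5)
        have e5 := btw hH (ℓ := j + 2) (by omega : p ≤ i) hiq hq e4
        have := (hH.mem (j + 2) p hp).1
        omega
    constructor
    · exact gen _ _ (hlm _) (hlm _) (hs1 k).symm (fun hT =>
        (hs2 k ((thin_congr hH (hlm _) (hlm _) (hs1 k)).2 hT)).symm)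
    · exact gen _ _ (hlm _) (hlm _) (hs1 k) (hs2 k)
  -- crossed marks
  set Cr : ℕ → Finset ℕ := fun k => M.filter (fun i => ¬ (i ≤ l (X k) ↔ i ≤ l (X (k + 1))))
    with hCr
  have hG : ∀ k, G m l r A E j (l (X k)) = (M.filter (fun i => i ≤ l (X k))).card := by
    intro k
    unfold G
    congr 1
    ext i
    simp only [mem_filter, mem_range, memM]
    have e1 := (hH.mem j (l (X k)) (hlm _)).2.1
    rw [hA0 k]
    rw [hE0 k] at e1
    constructor
    · rintro ⟨h1, h2, h3, h4⟩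
      exact ⟨⟨h1, h2, h3.trans e1, h4⟩, h3⟩
    · rintro ⟨⟨h1, h2, h3, h4⟩, h5⟩
      exact ⟨h1, h2, h5, h4⟩
  have hdich : ∀ k, (Cr k).card = 0 ∨ 7 * h ≤ (Cr k).card := by
    intro k
    have h1 := hmod k
    rw [hG k, hG (k + 1)] at h1
    rcases le_total (l (X k)) (l (X (k + 1))) with h2 | h2
    · have h3 := seg_card M _ _ h2
      by_cases h4 : (Cr k).card < 7 * h
      · left
        have h5 := key_mod h1 (by omega) (by
          have : (Cr k).card = (M.filter (fun i => ¬ (i ≤ l (X k) ↔ i ≤ l (X (k + 1))))).card := rfl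
          omega)
        have : (Cr k).card = (M.filter (fun i => ¬ (i ≤ l (X k) ↔ i ≤ l (X (k + 1))))).card := rfl
        omega
      · right; omega
    · have h3 := seg_card M _ _ h2
      have h6 : (Cr k).card =
          (M.filter (fun i => ¬ (i ≤ l (X (k + 1)) ↔ i ≤ l (X k)))).card := by
        simp only [hCr]
        congr 1
        ext i
        simp only [mem_filter]
        rw [iff_comm (a := i ≤ l (X k))]
      by_cases h4 : (Cr k).card < 7 * h
      · left
        have h5 := key_mod h1 (by omega) (by omega)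
        omega
      · right; omega
  -- chains
  have hch : ∀ k, ∃ S : Finset P, S.card ≤ h ∧ (∀ b ∈ S, X k ≤ b ∧ b ≤ Y (k + 1)) ∧
      ∀ i, (l (X k) < i ∧ i ≤ l (Y (k + 1)) ∨ l (Y (k + 1)) < i ∧ i ≤ l (X k)) →
        ∃ b ∈ S, l b < i ∧ i ≤ r b := by
    intro k
    obtain ⟨S, s1, -, s3, s4⟩ := chain P w h m l r H hR (H (Y (k + 1))) (X k) (Y (k + 1))
      (hle k) (by omega)
    have := hR.lt (Y (k + 1))
    exact ⟨S, by omega, s3, s4⟩
  choose Ch hc1 hc2 hc3 using hch
  set Lg : ℕ → Finset ℕ := fun k => (Cr k).filter (fun i => ∃ b ∈ Ch k,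
    A (j + 1) i ≠ i ∧ l b ≤ A (j + 1) i ∧ E (j + 1) i ≤ r b) with hLg
  -- few short crossings
  have hfew : ∀ k, (Cr k).card ≤ 3 * h + (Lg k).card := by
    intro k
    have hsub : Cr k ⊆ ((Ch k).biUnion fun b => M.filter (fun i => l b < i ∧ i ≤ r b ∧
        ¬ (A (j + 1) i ≠ i ∧ l b ≤ A (j + 1) i ∧ E (j + 1) i ≤ r b))) ∪ Lg k := by
      intro i hi
      have hi' := (mem_filter.1 hi)
      have h1 := hXY (k + 1) i hi'.1
      have h2 : l (X k) < i ∧ i ≤ l (Y (k + 1)) ∨ l (Y (k + 1)) < i ∧ i ≤ l (X k) := by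
        by_cases g1 : i ≤ l (X k)
        · right
          refine ⟨?_, g1⟩
          by_contra g2
          exact hi'.2 ⟨fun _ => h1.2 (not_lt.1 g2), fun _ => g1⟩
        · left
          refine ⟨not_le.1 g1, ?_⟩
          by_contra g2
          exact hi'.2 ⟨fun g3 => absurd g3 g1, fun g3 => absurd (h1.1 g3) g2⟩
      obtain ⟨b, b1, b2, b3⟩ := hc3 k i h2
      by_cases h3 : A (j + 1) i ≠ i ∧ l b ≤ A (j + 1) i ∧ E (j + 1) i ≤ r b
      · exact mem_union_right _ (mem_filter.2 ⟨hi, b, b1, h3⟩)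
      · exact mem_union_left _ (mem_biUnion.2 ⟨b, b1, mem_filter.2 ⟨hi'.1, b2, b3, h3⟩⟩)
    have h1 := card_le_card hsub
    have h2 := card_union_le ((Ch k).biUnion fun b => M.filter (fun i => l b < i ∧ i ≤ r b ∧
        ¬ (A (j + 1) i ≠ i ∧ l b ≤ A (j + 1) i ∧ E (j + 1) i ≤ r b))) (Lg k)
    have h3 := card_biUnion_le_card_mul (Ch k) (fun b => M.filter (fun i => l b < i ∧ i ≤ r b ∧
        ¬ (A (j + 1) i ≠ i ∧ l b ≤ A (j + 1) i ∧ E (j + 1) i ≤ r b))) 3 (by
      intro b hb
      have e1 := hno k b (hc2 k b hb).1 (hc2 k b hb).2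
      rw [hA0 k, hE0 k] at e1
      refine few hH hR.rm j a0 (l (X 0)) (hlm _) rfl b e1.1 e1.2 _ ?_
      intro i hi
      obtain ⟨g1, g2, g3, g4⟩ := mem_filter.1 hi
      obtain ⟨f1, f2, f3, f4⟩ := (memM i).1 g1
      exact ⟨f2, f3, f1, f4, g2, g3, g4⟩)
    have h4 := hc1 k
    have h5 : (Ch k).card * 3 ≤ h * 3 := Nat.mul_le_mul_right 3 h4
    omega
  -- long crossings are disjoint
  have hdis : ∀ k ∈ range n, ∀ k' ∈ range n, k ≠ k' → Disjoint (Lg k) (Lg k') := by
    intro k hk k' hk' hne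
    rw [mem_range] at hk hk'
    rw [disjoint_left]
    intro i h1 h2
    obtain ⟨c1, b, b1, b2, b3⟩ := mem_filter.1 h1
    obtain ⟨c1', b', b1', b2', b3'⟩ := mem_filter.1 h2
    obtain ⟨f1, f2, f3, f4⟩ := (memM i).1 (mem_filter.1 c1).1
    have hT := (f4.resolve_left b2).2
    have hAi : A j i = a0 := hH.node j (l (X 0)) i (hlm _) f2.le f3
    have hEi : E j i = e0 := hH.eqE j _ _ f1 (hlm _) hAi
    have hsp : ∀ k b, b ∈ Ch k → ¬ (l b ≤ A j i ∧ E j i ≤ r b) := by
      intro k b hb hc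
      have e1 := hno k b (hc2 k b hb).1 (hc2 k b hb).2
      rw [hA0 k, hE0 k] at e1
      rw [hAi, hEi] at hc
      exact e1.1 ⟨hc.1, by omega⟩
    have hbb : b = b' := hT b b' b3 (hsp k b b1) b3' (hsp k' b' b1')
    subst hbb
    have q1 := hc2 k b b1
    have q2 := hc2 k' b b1'
    rcases Nat.lt_or_gt_of_ne hne with h | h
    · exact hst k' (k + 1) (by omega) (by omega) (q2.1.trans q1.2)
    · exact hst k (k' + 1) (by omega) (by omega) (q1.1.trans q2.2)
  set U : Finset ℕ := (range n).biUnion Cr with hU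
  have hLU : ∑ k ∈ range n, (Lg k).card ≤ U.card := by
    rw [← card_biUnion hdis]
    apply card_le_card
    intro i hi
    obtain ⟨k, hk, hk'⟩ := mem_biUnion.1 hi
    exact mem_biUnion.2 ⟨k, hk, (mem_filter.1 hk').1⟩
  have hUC : 2 * U.card ≤ ∑ k ∈ range n, (Cr k).card := by
    have h1 : ∑ k ∈ range n, (Cr k).card = ∑ i ∈ M,
        ((range n).filter (fun k => ¬ (i ≤ l (X k) ↔ i ≤ l (X (k + 1))))).card := by
      simp only [hCr, card_filter]
      exact sum_comm
    have h2 : U ⊆ M := by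
      intro i hi
      obtain ⟨k, hk, hk'⟩ := mem_biUnion.1 hi
      exact (mem_filter.1 hk').1
    have h3 : ∑ i ∈ U, 2 ≤ ∑ i ∈ U,
        ((range n).filter (fun k => ¬ (i ≤ l (X k) ↔ i ≤ l (X (k + 1))))).card := by
      apply sum_le_sum
      intro i hi
      obtain ⟨k, hk, hk'⟩ := mem_biUnion.1 hi
      rw [mem_range] at hk
      obtain ⟨k1, g1, g2, g3⟩ := two_changes (fun k => i ≤ l (X k)) n (by
        have := hXp 0
        rw [zero_add] at this
        rw [this]) k hk (mem_filter.1 hk').2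
      exact one_lt_card.2 ⟨k, mem_filter.2 ⟨mem_range.2 hk, (mem_filter.1 hk').2⟩, k1,
        mem_filter.2 ⟨mem_range.2 g1, g3⟩, fun e => g2 e.symm⟩
    rw [sum_const, smul_eq_mul] at h3
    have h4 := sum_le_sum_of_subset (f := fun i =>
      ((range n).filter (fun k => ¬ (i ≤ l (X k) ↔ i ≤ l (X (k + 1))))).card) h2
    rw [h1]
    omega
  -- no crossed marks
  have hz : ∀ k, k < n → (Cr k).card = 0 := by
    intro k hk
    by_contra hne
    have h1 : ∑ k ∈ range n, (Cr k).card < ∑ k ∈ range n, 2 * (Lg k).card := by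
      apply sum_lt_sum
      · intro i _
        have h1 := hfew i
        rcases hdich i with h2 | h2 <;> omega
      · refine ⟨k, mem_range.2 hk, ?_⟩
        have h1 := hfew k
        rcases hdich k with h2 | h2 <;> omega
    rw [← mul_sum] at h1
    omega
  intro k
  have hk : (Cr k).card = 0 := by
    have h1 := hz (k % n) (Nat.mod_lt _ (by omega))
    have h2 : X (k % n) = X k := Function.Periodic.map_mod_nat (f := X) hXp k
    have h3 : X (k % n + 1) = X (k + 1) := by
      have hp : Function.Periodic (fun k => X (k + 1)) n := by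
        intro k
        show X (k + n + 1) = X (k + 1)
        rw [show k + n + 1 = k + 1 + n by omega]
        exact hXp (k + 1)
      exact hp.map_mod_nat k
    simp only [hCr, h2, h3] at h1
    exact h1
  have hem : ∀ i ∈ M, (i ≤ l (X k) ↔ i ≤ l (X (k + 1))) := by
    intro i hi
    by_contra hc
    have h1 : i ∈ Cr k := mem_filter.2 ⟨hi, hc⟩
    rw [card_eq_zero.1 hk] at h1
    exact absurd h1 (notMem_empty i)
  rcases le_total (l (X k)) (l (X (k + 1))) with h2 | h2
  · refine nosep hH h2 (hlm _) (hA k) ?_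
    intro i i1 i2 i3 i4
    rw [hA0 k] at i1
    rw [hE0 k] at i2
    exact hem i ((memM i).2 ⟨i3, i1, i2, i4⟩)
  · obtain ⟨g1, g2⟩ := nosep hH h2 (hlm _) (hA k).symm (by
      intro i i1 i2 i3 i4
      rw [hA0 (k + 1)] at i1
      rw [hE0 (k + 1)] at i2
      exact (hem i ((memM i).2 ⟨i3, i1, i2, i4⟩)).symm)
    exact ⟨g1.symm, fun hT => (g2 ((thin_congr hH (hlm _) (hlm _) g1.symm).1 hT)).symm⟩

end Pool.Agent.Helper23.NU
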