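import Pool.Agent.Helper66.PD.Up7S

/-!
# The inside of a node is a poset of smaller path-width
-/

set_option autoImplicit false

namespace Pool.Agent.Helper23.NU

open Finset Pool.Agent.Helper66.PD

/-- the elements inside an interval -/
structure Ins (P : Type) (l r : P → ℕ) (α ε : ℕ) where
  /-- the element -/
  val : P
  prop : α < l val ∧ r val < ε

section

variable {P : Type} [PartialOrder P] {l r : P → ℕ} {α ε : ℕ}

theorem rtg_le {x y : P} (h : Relation.ReflTransGen (· ⋖ ·) x y) : x ≤ y := by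
  induction h with
  | refl => exact le_rfl
  | tail _ h2 ih => exact ih.trans h2.le

omit [PartialOrder P] in
theorem val_inj : Function.Injective (Ins.val : Ins P l r α ε → P) := by
  rintro ⟨u, hu⟩ ⟨v, hv⟩ h
  have h' : u = v := h
  subst h'
  rfl

theorem ins_le_val (x y : Ins P l r α ε)
    (h : Relation.ReflTransGen (fun u v : Ins P l r α ε => u.val ⋖ v.val) x y) : x.val ≤ y.val := by
  induction h with
  | refl => exact le_rfl
  | tail _ h2 ih => exact ih.trans h2.le

instance insPO : PartialOrder (Ins P l r α ε) where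
  le x y := Relation.ReflTransGen (fun u v : Ins P l r α ε => u.val ⋖ v.val) x y
  le_refl _ := Relation.ReflTransGen.refl
  le_trans _ _ _ h1 h2 := Relation.ReflTransGen.trans h1 h2
  le_antisymm x y h1 h2 := val_inj (le_antisymm (ins_le_val x y h1) (ins_le_val y x h2))

theorem ins_le (x y : Ins P l r α ε) : x ≤ y ↔
    Relation.ReflTransGen (fun u v : Ins P l r α ε => u.val ⋖ v.val) x y := Iff.rfl

theorem ins_cov (x y : Ins P l r α ε) (h : x ⋖ y) : x.val ⋖ y.val := by
  rcases Relation.ReflTransGen.cases_head ((ins_le x y).1 h.le) with h1 | ⟨w, h1, h2⟩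
  · exact absurd h1 h.ne
  · by_cases h3 : w = y
    · rw [← h3]; exact h1
    · exfalso
      have h4 : x ≤ w := Relation.ReflTransGen.single h1
      have h5 : x ≠ w := fun h6 => h1.ne (congrArg Ins.val h6)
      have h7 : w ≤ y := h2
      exact h.2 (lt_of_le_of_ne h4 h5) (lt_of_le_of_ne h7 h3)

theorem ins_height {h : ℕ} (hP : HeightLE P h) : HeightLE (Ins P l r α ε) h := by
  classical
  intro s hs
  have h1 : (s.image (fun u : Ins P l r α ε => u.val)).card = s.card :=
    Finset.card_image_of_injective _ val_inj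
  rw [← h1]
  apply hP
  intro x hx y hy hne
  obtain ⟨u, hu, rfl⟩ := Finset.mem_image.1 (Finset.mem_coe.1 hx)
  obtain ⟨v, hv, rfl⟩ := Finset.mem_image.1 (Finset.mem_coe.1 hy)
  have huv : u ≠ v := fun h2 => hne (congrArg Ins.val h2)
  rcases hs (Finset.mem_coe.2 hu) (Finset.mem_coe.2 hv) huv with h2 | h2
  · exact Or.inl (ins_le_val u v h2)
  · exact Or.inr (ins_le_val v u h2)

/-- a chain of covers of elements inside -/
theorem ins_rtg {x y : P} (h : Relation.ReflTransGen (· ⋖ ·) x y)
    (hin : ∀ b, x ≤ b → b ≤ y → α < l b ∧ r b < ε) (hx : α < l x ∧ r x < ε)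
    (hy : α < l y ∧ r y < ε) : (⟨x, hx⟩ : Ins P l r α ε) ≤ ⟨y, hy⟩ := by
  induction h using Relation.ReflTransGen.head_induction_on with
  | refl => exact le_rfl
  | head h1 h2 ih =>
    rename_i a c
    have hc := hin c h1.le (rtg_le h2)
    have h9 : (⟨a, hx⟩ : Ins P l r α ε) ≤ ⟨c, hc⟩ := Relation.ReflTransGen.single h1
    exact h9.trans (ih (fun b h5 h6 => hin b (h1.le.trans h5) h6) hc)

end

theorem ins : ST_INS := by
  classical
  intro P _ _ w h d m l r H A E C hR hH hh hQ a ha
  let _ : Fintype (Ins P l r (A 1 a) (E 1 a)) :=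
    Fintype.ofInjective (fun u : Ins P l r (A 1 a) (E 1 a) => u.val) val_inj
  have key : ∀ i : Fin m, (univ.filter (fun u : Ins P l r (A 1 a) (E 1 a) =>
      l u.val ≤ (i : ℕ) ∧ (i : ℕ) ≤ r u.val)).card ≤ w + 1 := by
    intro i
    rcases (univ.filter (fun u : Ins P l r (A 1 a) (E 1 a) =>
      l u.val ≤ (i : ℕ) ∧ (i : ℕ) ≤ r u.val)).eq_empty_or_nonempty with h0 | ⟨z, hz⟩
    · rw [h0, card_empty]; omega
    · rw [mem_filter] at hz
      obtain ⟨-, z1, z2⟩ := hz
      have z3 := z.prop.1
      have z4 := z.prop.2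
      have him : (i : ℕ) < m := i.2
      have e1 : A 1 i = A 1 a := hH.node 1 a i ha (by omega) (by omega)
      have e2 : E 1 i = E 1 a := hH.eqE 1 _ _ him ha e1
      obtain ⟨m1, m2, m3⟩ := hH.mem 1 i him
      rcases spn2 P m l r A E C hH i him 1 with hs | hs
      · have := (hs z.val z1 z2).1
        omega
      · have h2 : ((univ.filter (fun u : Ins P l r (A 1 a) (E 1 a) =>
            l u.val ≤ (i : ℕ) ∧ (i : ℕ) ≤ r u.val)).image
            (fun u : Ins P l r (A 1 a) (E 1 a) => u.val)).card =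
            (univ.filter (fun u : Ins P l r (A 1 a) (E 1 a) =>
            l u.val ≤ (i : ℕ) ∧ (i : ℕ) ≤ r u.val)).card :=
          Finset.card_image_of_injective _ val_inj
        have h3 : Disjoint ((univ.filter (fun u : Ins P l r (A 1 a) (E 1 a) =>
            l u.val ≤ (i : ℕ) ∧ (i : ℕ) ≤ r u.val)).image
            (fun u : Ins P l r (A 1 a) (E 1 a) => u.val))
            (univ.filter (fun x => l x ≤ A 1 i ∧ E 1 i ≤ r x)) := by
          rw [Finset.disjoint_left]
          intro x hx hx'
          obtain ⟨u, hu, rfl⟩ := Finset.mem_image.1 hx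
          rw [mem_filter] at hx'
          have h4 := u.prop.1
          have h5 := hx'.2.1
          omega
        have h4 : ((univ.filter (fun u : Ins P l r (A 1 a) (E 1 a) =>
            l u.val ≤ (i : ℕ) ∧ (i : ℕ) ≤ r u.val)).image
            (fun u : Ins P l r (A 1 a) (E 1 a) => u.val)) ∪
            (univ.filter (fun x => l x ≤ A 1 i ∧ E 1 i ≤ r x)) ⊆
            univ.filter (fun x => l x ≤ (i : ℕ) ∧ (i : ℕ) ≤ r x) := by
          intro x hx
          rw [mem_union] at hx
          rcases hx with hx | hx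
          · obtain ⟨u, hu, rfl⟩ := Finset.mem_image.1 hx
            rw [mem_filter] at hu ⊢
            exact ⟨mem_univ _, hu.2⟩
          · rw [mem_filter] at hx ⊢
            exact ⟨mem_univ _, hx.2.1.trans m1, m2.trans hx.2.2⟩
        have h5 := card_le_card h4
        rw [card_union_of_disjoint h3, h2] at h5
        have h6 := hR.card i
        omega
  have hpw : PathWidthLE (cov (Ins P l r (A 1 a) (E 1 a))) w := by
    refine ⟨m, fun i => univ.filter (fun u => l u.val ≤ (i : ℕ) ∧ (i : ℕ) ≤ r u.val), ?_, ?_, ?_, ?_⟩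
    · intro u
      have h1 : l u.val < m := lt_of_le_of_lt (hR.lr u.val) (hR.rm u.val)
      exact ⟨⟨l u.val, h1⟩, by rw [mem_filter]; exact ⟨mem_univ _, le_rfl, hR.lr u.val⟩⟩
    · intro u v huv
      have hm : l u.val ≤ r v.val ∧ l v.val ≤ r u.val := by
        unfold cov at huv
        rw [SimpleGraph.fromRel_adj] at huv
        rcases huv.2 with h1 | h1
        · exact hR.adj _ _ (ins_cov u v h1)
        · exact (hR.adj _ _ (ins_cov v u h1)).symm
      have h1 : max (l u.val) (l v.val) < m :=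
        lt_of_le_of_lt (max_le (hR.lr u.val) hm.2) (hR.rm u.val)
      refine ⟨⟨max (l u.val) (l v.val), h1⟩, ?_, ?_⟩
      · rw [mem_filter]
        exact ⟨mem_univ _, le_max_left _ _, max_le (hR.lr u.val) hm.2⟩
      · rw [mem_filter]
        exact ⟨mem_univ _, le_max_right _ _, max_le hm.1 (hR.lr v.val)⟩
    · intro i j k v hij hjk hi hk
      rw [mem_filter] at hi hk ⊢
      have a1 : (i : ℕ) ≤ j := hij
      have a2 : (j : ℕ) ≤ k := hjk
      exact ⟨mem_univ _, hi.2.1.trans a1, a2.trans hk.2.2⟩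
    · exact key
  obtain ⟨f, hf⟩ := hQ (Ins P l r (A 1 a) (E 1 a)) (ins_height hh) hpw
  refine ⟨fun x => if hx : A 1 a < l x ∧ r x < E 1 a then f ⟨x, hx⟩ else 0, ?_, ?_⟩
  · intro x y hxy hin i
    have hx := hin x le_rfl hxy
    have hy := hin y hxy le_rfl
    simp only [dif_pos hx, dif_pos hy]
    exact (hf _ _).1 (ins_rtg (le_rtg hxy) hin hx hy) i
  · intro x y hx hy hxy
    simp only [dif_pos hx, dif_pos hy]
    by_contra hcon
    push Not at hcon
    exact hxy (ins_le_val _ _ ((hf ⟨x, hx⟩ ⟨y, hy⟩).2 hcon))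

end Pool.Agent.Helper23.NU
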