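import Pool.Agent.Helper66.PD.Fin

/-!
# Dimension and height, path-width `w`: exponent `w / 2 + 1` (statements)

On a level `j` where the child of the position is spanned by only one new element (`Thin`), the
index of the level `j` is not recorded; the number `G` of boundaries of children and of
grandchildren in thin children is recorded instead, for the levels `j` and `j + 1` together.
-/

set_option autoImplicit false

namespace Pool.Agent.Helper23.NU

open Pool.Agent.Helper66.PD Finset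

/-- at most one element spans the child of `p` and does not span the node (level `j`) of `p` -/
def Thin {P : Type} (l r : P → ℕ) (A E : ℕ → ℕ → ℕ) (j p : ℕ) : Prop :=
  ∀ z z' : P, (l z ≤ A (j + 1) p ∧ E (j + 1) p ≤ r z) → ¬ (l z ≤ A j p ∧ E j p ≤ r z) →
    (l z' ≤ A (j + 1) p ∧ E (j + 1) p ≤ r z') → ¬ (l z' ≤ A j p ∧ E j p ≤ r z') → z = z'

/-- marks: first positions of the children, and of the grandchildren in thin children -/
def Mk {P : Type} (l r : P → ℕ) (A E : ℕ → ℕ → ℕ) (j i : ℕ) : Prop :=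
  A (j + 1) i = i ∨ (A (j + 2) i = i ∧ Thin l r A E j i)

open Classical in
/-- number of marks before `p` in the node (level `j`) of `p` -/
noncomputable def G {P : Type} (m : ℕ) (l r : P → ℕ) (A E : ℕ → ℕ → ℕ) (j p : ℕ) : ℕ :=
  ((range m).filter (fun i => A j p < i ∧ i ≤ p ∧ Mk l r A E j i)).card

/-- CONF: a strict alternating cycle inside a node stays in one child, and in one grandchild if the
child is thin -/
def ST_CONF : Prop := ∀ (P : Type) [PartialOrder P] [Fintype P] (w h m : ℕ) (l r H : P → ℕ)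
  (A E C : ℕ → ℕ → ℕ), 1 ≤ h → Rep P w h m l r H → Hier P m l r A E C →
  ∀ (j n : ℕ) (X Y : ℕ → P), 1 ≤ n → (∀ k, X (k + n) = X k) → (∀ k, Y (k + n) = Y k) →
  (∀ k, X k ≤ Y (k + 1)) → (∀ a b, b ≤ a → a + 1 < b + n → ¬ X a ≤ Y b) →
  (∀ k, A j (l (X k)) = A j (l (X (k + 1)))) →
  (∀ k b, X k ≤ b → b ≤ Y (k + 1) → ¬ (l b ≤ A j (l (X k)) ∧ A j (l (X k)) ≤ r b) ∧
    ¬ (l b ≤ E j (l (X k)) ∧ E j (l (X k)) ≤ r b)) →
  (∀ k, A (j + 1) (l (X k)) = A (j + 1) (l (Y k))) →
  (∀ k, Thin l r A E j (l (X k)) → A (j + 2) (l (X k)) = A (j + 2) (l (Y k))) →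
  (∀ k, G m l r A E j (l (X k)) % (7 * h) = G m l r A E j (l (X (k + 1))) % (7 * h)) →
  ∀ k, A (j + 1) (l (X k)) = A (j + 1) (l (X (k + 1))) ∧
    (Thin l r A E j (l (X k)) → A (j + 2) (l (X k)) = A (j + 2) (l (X (k + 1))))

end Pool.Agent.Helper23.NU
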