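import Pool.Agent.Helper66.PD.Up5S

/-!
# Two disjoint chains in a node meet at most `2 * h + 1` children of a region
-/

set_option autoImplicit false

namespace Pool.Agent.Helper23.NU

open Pool.Agent.Helper66.PD Finset

section

variable {P : Type} [PartialOrder P] {m : ℕ} {l r : P → ℕ} {A E C : ℕ → ℕ → ℕ}

/-- each boundary is the last one of an element of one of two disjoint families -/
theorem tcg_card (hH : Hier2 P m l r A E C) (ℓ a : ℕ) (ha : a < m) (s t : ℕ) (hs : A ℓ a ≤ s)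
    (ht : t ≤ E ℓ a) (S S' : Finset P)
    (h1 : ∀ b ∈ S, A ℓ a < l b) (h2 : ∀ b ∈ S', A ℓ a < l b)
    (c1 : ∀ u, s ≤ u → u + 1 ≤ t → ∃ b ∈ S, l b ≤ u ∧ u + 1 ≤ r b)
    (c2 : ∀ u, s ≤ u → u + 1 ≤ t → ∃ b ∈ S', l b ≤ u ∧ u + 1 ≤ r b)
    (hd : ∀ b ∈ S, b ∈ S' → ∀ p, s ≤ p → p ≤ t → l b ≤ p → p ≤ r b → False) :
    ((range m).filter (fun i => s < i ∧ i ≤ t ∧ A (ℓ + 1) i = i)).card ≤ S.card + S'.card := by
  classical
  obtain ⟨m1, m2, m3⟩ := hH.mem ℓ a ha
  set Rg := (range m).filter (fun i => s < i ∧ i ≤ t ∧ A (ℓ + 1) i = i) with hRg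
  have memR : ∀ i, i ∈ Rg ↔ i < m ∧ s < i ∧ i ≤ t ∧ A (ℓ + 1) i = i := by
    intro i
    rw [hRg, mem_filter, mem_range]
  have bad : ∀ (U : Finset P), (∀ u, s ≤ u → u + 1 ≤ t → ∃ b ∈ U, l b ≤ u ∧ u + 1 ≤ r b) →
      (Rg.filter (fun i => ∀ b ∈ U, l b < i → i ≤ r b → ∀ i' ∈ Rg, i < i' → ¬ i' ≤ r b)).card ≤
        U.card := by
    intro U hU
    by_cases hne : Nonempty P
    · have hU' : ∀ i : ℕ, ∃ b : P, i ∈ Rg → b ∈ U ∧ l b < i ∧ i ≤ r b := by
        intro i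
        by_cases hi : i ∈ Rg
        · obtain ⟨g1, g2, g3, g4⟩ := (memR i).1 hi
          obtain ⟨b, b1, b2, b3⟩ := hU (i - 1) (by omega) (by omega)
          exact ⟨b, fun _ => ⟨b1, by omega, by omega⟩⟩
        · exact ⟨hne.some, fun h => absurd h hi⟩
      choose g hg using hU'
      apply card_le_card_of_injOn g
      · intro i hi
        exact (hg i (mem_filter.1 (mem_coe.1 hi)).1).1
      · intro i hi j hj hij
        have hi' := mem_filter.1 (mem_coe.1 hi)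
        have hj' := mem_filter.1 (mem_coe.1 hj)
        have gi := hg i hi'.1
        have gj := hg j hj'.1
        rcases lt_trichotomy i j with hlt | hlt | hlt
        · exact absurd (hij ▸ gj.2.2) (hi'.2 (g i) gi.1 gi.2.1 gi.2.2 j hj'.1 hlt)
        · exact hlt
        · exact absurd (hij.symm ▸ gi.2.2) (hj'.2 (g j) gj.1 gj.2.1 gj.2.2 i hi'.1 hlt)
    · have : Rg = ∅ := by
        rw [Finset.eq_empty_iff_forall_notMem]
        intro i hi
        obtain ⟨g1, g2, g3, g4⟩ := (memR i).1 hi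
        obtain ⟨b, -⟩ := hU (i - 1) (by omega) (by omega)
        exact hne ⟨b⟩
      rw [this]
      simp
  have hsub : Rg ⊆ (Rg.filter (fun i => ∀ b ∈ S, l b < i → i ≤ r b → ∀ i' ∈ Rg, i < i' →
      ¬ i' ≤ r b)) ∪ (Rg.filter (fun i => ∀ b ∈ S', l b < i → i ≤ r b → ∀ i' ∈ Rg, i < i' →
      ¬ i' ≤ r b)) := by
    intro i hi
    by_contra hc1
    have x1 : ∃ b ∈ S, l b < i ∧ i ≤ r b ∧ ∃ i' ∈ Rg, i < i' ∧ i' ≤ r b := by
      by_contra hn
      apply hc1
      apply mem_union_left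
      refine mem_filter.2 ⟨hi, ?_⟩
      intro b hb g1 g2 i' hi' g3 g4
      exact hn ⟨b, hb, g1, g2, i', hi', g3, g4⟩
    have x2 : ∃ b ∈ S', l b < i ∧ i ≤ r b ∧ ∃ i' ∈ Rg, i < i' ∧ i' ≤ r b := by
      by_contra hn
      apply hc1
      apply mem_union_right
      refine mem_filter.2 ⟨hi, ?_⟩
      intro b hb g1 g2 i' hi' g3 g4
      exact hn ⟨b, hb, g1, g2, i', hi', g3, g4⟩
    obtain ⟨F, F1, F2, F3, i1, F4, F5, F6⟩ := x1
    obtain ⟨K, K1, K2, K3, i2, K4, K5, K6⟩ := x2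
    obtain ⟨a1, a2, a3, a4⟩ := (memR i).1 hi
    have hFK : F ≠ K := by
      rintro rfl
      exact hd F F1 K1 i a2.le a3 F2.le F3
    obtain ⟨i', e1, e2, e3, e4⟩ : ∃ i' ∈ Rg, i < i' ∧ i' ≤ r F ∧ i' ≤ r K := by
      rcases le_total i1 i2 with h | h
      · exact ⟨i1, F4, F5, F6, h.trans K6⟩
      · exact ⟨i2, K4, K5, h.trans F6, K6⟩
    obtain ⟨b1, b2, b3, b4⟩ := (memR i').1 e1
    have n2 : A ℓ i = A ℓ a := hH.node ℓ a i ha (by omega) (by omega)
    have n3 : A ℓ (i' - 1) = A ℓ a := hH.node ℓ a (i' - 1) ha (by omega) (by omega)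
    have n4 : A ℓ i' = A ℓ a := hH.node ℓ a i' ha (by omega) (by omega)
    have nE : E ℓ i = E ℓ a := hH.eqE ℓ _ _ a1 ha n2
    have s1 := hH.greedy ℓ i F K i' a1 hFK
      (by rw [n2]; exact fun hx => absurd (h1 F F1) (not_lt.2 hx.1))
      (by rw [n2]; exact fun hx => absurd (h2 K K1) (not_lt.2 hx.1))
      (by rw [a4]; exact F2.le) (by rw [a4]; exact K2.le) (by rw [a4]; exact e2.le)
      (by rw [nE]; omega) e3 e4
    have s4 := hH.mono ℓ i (i' - 1) (by omega) (by omega) (n2.trans n3.symm)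
    have s5 := hH.mono ℓ (i' - 1) i' (by omega) (by omega) (n3.trans n4.symm)
    have s6 : C ℓ (i' - 1) = C ℓ i' := by omega
    have s7 := (hH.child ℓ (i' - 1) i' (by omega) b1).2 ⟨n3.trans n4.symm, s6⟩
    have s8 := (hH.mem (ℓ + 1) (i' - 1) (by omega)).1
    omega
  have g1 := card_le_card hsub
  have g2 := card_union_le (Rg.filter (fun i => ∀ b ∈ S, l b < i → i ≤ r b → ∀ i' ∈ Rg, i < i' →
      ¬ i' ≤ r b)) (Rg.filter (fun i => ∀ b ∈ S', l b < i → i ≤ r b → ∀ i' ∈ Rg, i < i' →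
      ¬ i' ≤ r b))
  have g3 := bad S c1
  have g4 := bad S' c2
  omega

/-- the number of the child grows by at most the number of boundaries -/
theorem tcg_C (hH : Hier2 P m l r A E C) (ℓ a : ℕ) (ha : a < m) (s : ℕ) (hs : A ℓ a ≤ s) :
    ∀ d, s + d ≤ E ℓ a → C ℓ (s + d) ≤ C ℓ s +
      ((range m).filter (fun i => s < i ∧ i ≤ s + d ∧ A (ℓ + 1) i = i)).card := by
  classical
  obtain ⟨m1, m2, m3⟩ := hH.mem ℓ a ha
  intro d
  induction d with
  | zero => intro _; exact Nat.le_add_right _ _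
  | succ d ih =>
    intro hd
    have i1 := ih (by omega)
    have n1 : A ℓ (s + d) = A ℓ a := hH.node ℓ a (s + d) ha (by omega) (by omega)
    have n2 : A ℓ (s + d + 1) = A ℓ a := hH.node ℓ a (s + d + 1) ha (by omega) (by omega)
    have i2 := hH.one ℓ (s + d) (by omega) (n1.trans n2.symm)
    rw [← Nat.add_assoc]
    have hsub : (range m).filter (fun i => s < i ∧ i ≤ s + d ∧ A (ℓ + 1) i = i) ⊆
        (range m).filter (fun i => s < i ∧ i ≤ s + d + 1 ∧ A (ℓ + 1) i = i) := by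
      intro i hi
      rw [mem_filter] at hi ⊢
      exact ⟨hi.1, hi.2.1, by omega, hi.2.2.2⟩
    by_cases h : C ℓ (s + d) = C ℓ (s + d + 1)
    · have := card_le_card hsub
      omega
    · have h3 : A (ℓ + 1) (s + d + 1) = s + d + 1 := by
        obtain ⟨q1, q2, q3⟩ := hH.mem (ℓ + 1) (s + d + 1) (by omega)
        by_contra hne
        have h4 := hH.node (ℓ + 1) (s + d + 1) (s + d) (by omega) (by omega) (by omega)
        exact h ((hH.child ℓ _ _ (by omega) (by omega)).1 h4).2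
      have h4 : (range m).filter (fun i => s < i ∧ i ≤ s + d ∧ A (ℓ + 1) i = i) ⊂
          (range m).filter (fun i => s < i ∧ i ≤ s + d + 1 ∧ A (ℓ + 1) i = i) := by
        rw [Finset.ssubset_iff_of_subset hsub]
        refine ⟨s + d + 1, ?_, ?_⟩
        · rw [mem_filter, mem_range]
          exact ⟨by omega, by omega, le_rfl, h3⟩
        · rw [mem_filter]
          rintro ⟨-, -, h5, -⟩
          omega
      have := card_lt_card h4
      omega

end

theorem tcg (hCRO : ST_CRO) : ST_TCG := by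
  classical
  intro P _ _ w h m l r H A E C hR hH i a ha
  obtain ⟨m1, m2, m3⟩ := hH.mem i a ha
  have hA : ∀ p, A i a ≤ p → p ≤ E i a → A i p = A i a := fun p h1 h2 => hH.node i a p ha h1 h2
  have hcro := hCRO P w h m l r H hR
  refine ⟨hR.lr, ?_, ?_, hcro, ?_⟩
  · intro p q h1 h2 h3
    exact hH.mono i p q h2 (by omega) ((hA p h1 (h2.trans h3)).trans (hA q (h1.trans h2) h3).symm)
  · intro p h1 h2
    exact hH.one i p (by omega) ((hA p h1 (by omega)).trans (hA (p + 1) (by omega) h2).symm)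
  · intro x y x' y' s t hI hI' hx1 hx2 hx1' hx2' hst hs ht hC hC' hdis
    have in1 := inn_inside hR.lr hcro hI hx1 hx2
    have in2 := inn_inside hR.lr hcro hI' hx1' hx2'
    obtain ⟨S, s1, s2, s3, s4⟩ := up4_chain P l r H h hR.adj hR.mono hR.lt x y (le_rtg hI.1)
    obtain ⟨S', s1', s2', s3', s4'⟩ := up4_chain P l r H h hR.adj hR.mono hR.lt x' y'
      (le_rtg hI'.1)
    have cov : ∀ (x y : P) (S : Finset P), Cr l r x y s t →
        (∀ u q, l y ≤ q → q ≤ r y → (l x ≤ u ∧ u < q ∨ u < l x ∧ q ≤ u) →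
          ∃ b ∈ S, l b ≤ u ∧ u + 1 ≤ r b) →
        ∀ u, s ≤ u → u + 1 ≤ t → ∃ b ∈ S, l b ≤ u ∧ u + 1 ≤ r b := by
      intro x y S hC hS u hu1 hu2
      rcases hC with ⟨g1, q, g2, g3, g4⟩ | ⟨g1, q, g2, g3, g4⟩
      · exact hS u q g3 g4 (Or.inl ⟨by omega, by omega⟩)
      · exact hS u q g3 g4 (Or.inr ⟨by omega, by omega⟩)
    have k1 := tcg_card hH i a ha s t hs ht S S' (fun b hb => (in1 b (s2 b hb).1 (s2 b hb).2).1)
      (fun b hb => (in2 b (s2' b hb).1 (s2' b hb).2).1) (cov x y S hC s4) (cov x' y' S' hC' s4')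
      (fun b hb hb' p p1 p2 p3 p4 => hdis b p p1 p2 p3 p4 (s2 b hb).1 (s2 b hb).2
        (s2' b hb').1 (s2' b hb').2)
    have k2 := tcg_C hH i a ha s hs (t - s) (by omega)
    rw [show s + (t - s) = t by omega] at k2
    omega

end Pool.Agent.Helper23.NU
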