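import Pool.Agent.Helper23.NU.TCG

/-!
# Nodes with at most two elements of a bag which do not span the node
-/

set_option autoImplicit false

namespace Pool.Agent.Helper23.NU

open Pool.Agent.Helper66.PD Finset

theorem tcl_two {P : Type} [PartialOrder P] [Fintype P] {w h m : ℕ} {l r H : P → ℕ}
    {A E C : ℕ → ℕ → ℕ} (hR : Rep P w h m l r H) (hH : Hier2 P m l r A E C) {i a p : ℕ}
    (ha : a < m) (hw : w ≤ 2 * i + 1) (h1 : A i a ≤ p) (h2 : p ≤ E i a) {b b' d : P}
    (hbb : b ≠ b') (hb1 : l b ≤ p) (hb2 : p ≤ r b) (hb1' : l b' ≤ p) (hb2' : p ≤ r b')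
    (hd1 : l d ≤ p) (hd2 : p ≤ r d) (nb : A i a < l b) (nb' : A i a < l b') (nd : A i a < l d) :
    d = b ∨ d = b' := by
  classical
  obtain ⟨m1, m2, m3⟩ := hH.mem i a ha
  have e1 := hH.node i a p ha h1 h2
  have e2 := hH.eqE i p a (by omega) ha e1
  by_contra hcon
  push Not at hcon
  rcases spn2 P m l r A E C hH p (by omega) i with hs | hs
  · have := (hs b hb1 hb2).1
    rw [e1] at this
    omega
  · rw [e1, e2] at hs
    set K := univ.filter (fun z => l z ≤ A i a ∧ E i a ≤ r z) with hK
    have k1 : b ∉ K := fun hx => by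
      rw [hK, mem_filter] at hx
      omega
    have k2 : b' ∉ K := fun hx => by
      rw [hK, mem_filter] at hx
      omega
    have k3 : d ∉ K := fun hx => by
      rw [hK, mem_filter] at hx
      omega
    have k4 : b' ∉ insert d K := by
      rw [mem_insert]
      rintro (hx | hx)
      · exact hcon.2 hx.symm
      · exact k2 hx
    have k5 : b ∉ insert b' (insert d K) := by
      rw [mem_insert, mem_insert]
      rintro (hx | hx | hx)
      · exact hbb hx
      · exact hcon.1 hx.symm
      · exact k1 hx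
    have hsub : insert b (insert b' (insert d K)) ⊆
        univ.filter (fun z => l z ≤ p ∧ p ≤ r z) := by
      intro z hz
      rw [mem_insert, mem_insert, mem_insert] at hz
      rw [mem_filter]
      rcases hz with rfl | rfl | rfl | hz
      · exact ⟨mem_univ _, hb1, hb2⟩
      · exact ⟨mem_univ _, hb1', hb2'⟩
      · exact ⟨mem_univ _, hd1, hd2⟩
      · rw [hK, mem_filter] at hz
        exact ⟨mem_univ _, hz.2.1.trans h1, h2.trans hz.2.2⟩
    have hcd := (card_le_card hsub).trans (hR.card p)
    rw [card_insert_of_notMem k5, card_insert_of_notMem k4, card_insert_of_notMem k3] at hcd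
    omega

theorem tcl (hCRO : ST_CRO) : ST_TCL := by
  classical
  intro P _ _ w h m l r H A E C hR hH i a ha hw
  obtain ⟨m1, m2, m3⟩ := hH.mem i a ha
  have hA : ∀ p, A i a ≤ p → p ≤ E i a → A i p = A i a := fun p h1 h2 => hH.node i a p ha h1 h2
  have hcro := hCRO P w h m l r H hR
  refine ⟨hR.lr, ?_, ?_, hcro, ?_⟩
  · intro p q h1 h2 h3
    exact hH.mono i p q h2 (by omega) ((hA p h1 (h2.trans h3)).trans (hA q (h1.trans h2) h3).symm)
  · intro p h1 h2
    exact hH.one i p (by omega) ((hA p h1 (by omega)).trans (hA (p + 1) (by omega) h2).symm)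
  · intro x y x' y' s t hI hI' hx1 hx2 hx1' hx2' hst hs ht hC hC' hdis
    have in1 := inn_inside hR.lr hcro hI hx1 hx2
    have in2 := inn_inside hR.lr hcro hI' hx1' hx2'
    obtain ⟨S, s1, s2, s3, s4⟩ := up4_chain P l r H h hR.adj hR.mono hR.lt x y (le_rtg hI.1)
    obtain ⟨S', s1', s2', s3', s4'⟩ := up4_chain P l r H h hR.adj hR.mono hR.lt x' y'
      (le_rtg hI'.1)
    have cov : ∀ (x y : P) (S : Finset P), Cr l r x y s t →
        (∀ u q, l y ≤ q → q ≤ r y → (l x ≤ u ∧ u < q ∨ u < l x ∧ q ≤ u) →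
          ∃ b ∈ S, l b ≤ u ∧ u + 1 ≤ r b) →
        ∀ u, s ≤ u → u + 1 ≤ t → ∃ b ∈ S, l b ≤ u ∧ u + 1 ≤ r b := by
      intro x y S hC hS u hu1 hu2
      rcases hC with ⟨g1, q, g2, g3, g4⟩ | ⟨g1, q, g2, g3, g4⟩
      · exact hS u q g3 g4 (Or.inl ⟨by omega, by omega⟩)
      · exact hS u q g3 g4 (Or.inr ⟨by omega, by omega⟩)
    have c1 := cov x y S hC s4
    have c2 := cov x' y' S' hC' s4'
    by_contra hcon
    -- the first boundary with a new number, and a later one
    have k2 := tcg_C hH i a ha s hs (t - s) (by omega)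
    rw [show s + (t - s) = t by omega] at k2
    have k3 : 1 < ((range m).filter (fun j => s < j ∧ j ≤ t ∧ A (i + 1) j = j)).card := by omega
    obtain ⟨j1, hj1, j2, hj2, hne⟩ := one_lt_card.1 k3
    obtain ⟨u, v, huv, hu, hv⟩ : ∃ u v, u < v ∧
        u ∈ (range m).filter (fun j => s < j ∧ j ≤ t ∧ A (i + 1) j = j) ∧
        v ∈ (range m).filter (fun j => s < j ∧ j ≤ t ∧ A (i + 1) j = j) := by
      rcases Nat.lt_or_gt_of_ne hne with h | h
      · exact ⟨j1, j2, h, hj1, hj2⟩
      · exact ⟨j2, j1, h, hj2, hj1⟩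
    rw [mem_filter, mem_range] at hu hv
    obtain ⟨u1, u2, u3, u4⟩ := hu
    obtain ⟨v1, v2, v3, v4⟩ := hv
    obtain ⟨F, F1, F2, F3⟩ := c1 (u - 1) (by omega) (by omega)
    obtain ⟨K, K1, K2, K3⟩ := c2 (u - 1) (by omega) (by omega)
    have hno : ∀ b ∈ S, b ∈ S' → ∀ p, s ≤ p → p ≤ t → l b ≤ p → p ≤ r b → False :=
      fun b hb hb' p p1 p2 p3 p4 => hdis b p p1 p2 p3 p4 (s2 b hb).1 (s2 b hb).2
        (s2' b hb').1 (s2' b hb').2
    have hFK : F ≠ K := by
      rintro rfl
      exact hno F F1 K1 u (by omega) (by omega) (by omega) (by omega)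
    have iF := (in1 F (s2 F F1).1 (s2 F F1).2).1
    have iK := (in2 K (s2' K K1).1 (s2' K K1).2).1
    have hreach : ∀ d, u + d ≤ v → u + d ≤ r F ∧ u + d ≤ r K := by
      intro d
      induction d with
      | zero => intro _; exact ⟨by omega, by omega⟩
      | succ d ih =>
        intro hd
        obtain ⟨g1, g2⟩ := ih (by omega)
        obtain ⟨b, b1, b2, b3⟩ := c1 (u + d) (by omega) (by omega)
        obtain ⟨b', b1', b2', b3'⟩ := c2 (u + d) (by omega) (by omega)
        have ib := (in1 b (s2 b b1).1 (s2 b b1).2).1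
        have ib' := (in2 b' (s2' b' b1').1 (s2' b' b1').2).1
        have q1 := tcl_two hR hH (p := u + d) ha hw (by omega) (by omega) hFK (by omega) g1
          (by omega) g2 b2 (by omega) iF iK ib
        have q2 := tcl_two hR hH (p := u + d) ha hw (by omega) (by omega) hFK (by omega) g1
          (by omega) g2 b2' (by omega) iF iK ib'
        refine ⟨?_, ?_⟩
        · rcases q1 with q1 | q1
          · rw [← q1]; omega
          · exact (hno b b1 (q1 ▸ K1) (u + d) (by omega) (by omega) b2 (by omega)).elim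
        · rcases q2 with q2 | q2
          · exact (hno b' (q2 ▸ F1) b1' (u + d) (by omega) (by omega) b2' (by omega)).elim
          · rw [← q2]; omega
    obtain ⟨r1, r2⟩ := hreach (v - u) (by omega)
    have n2 : A i u = A i a := hH.node i a u ha (by omega) (by omega)
    have n3 : A i (v - 1) = A i a := hH.node i a (v - 1) ha (by omega) (by omega)
    have n4 : A i v = A i a := hH.node i a v ha (by omega) (by omega)
    have nE : E i u = E i a := hH.eqE i _ _ u1 ha n2
    have g1 := hH.greedy i u F K v u1 hFK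
      (by rw [n2]; exact fun hx => absurd iF (not_lt.2 hx.1))
      (by rw [n2]; exact fun hx => absurd iK (not_lt.2 hx.1))
      (by rw [u4]; omega) (by rw [u4]; omega) (by rw [u4]; omega)
      (by rw [nE]; omega) (by omega) (by omega)
    have g2 := hH.mono i u (v - 1) (by omega) (by omega) (n2.trans n3.symm)
    have g3 := hH.mono i (v - 1) v (by omega) (by omega) (n3.trans n4.symm)
    have g4 : C i (v - 1) = C i v := by omega
    have g5 := (hH.child i (v - 1) v (by omega) v1).2 ⟨n3.trans n4.symm, g4⟩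
    have g6 := (hH.mem (i + 1) (v - 1) (by omega)).1
    omega

end Pool.Agent.Helper23.NU
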